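import Mathlib
import Pool.Agent.H.MP_3fd052_nt.A

set_option autoImplicit false

namespace Pool.Agent.Results.MP_3fd052_nt.Avoid

theorem result : ∃ (k : ℕ → ℕ) (b : ℕ → ℤ) (h : ℕ), 0 < h ∧ k 0 = 0 ∧
    (∀ n, k n + 3 ≤ k (n + 1)) ∧
    (∀ n i, k n ≤ i → i < k (n + 1) → b i = b (k n)) ∧
    (∀ n, b (k (n + 1)) - b (k n) = b (n + 1)) ∧
    ∀ n, ¬ (h : ℤ) ∣ b n :=
  ⟨_, _, 11, by norm_num, Pool.Agent.H.MP_3fd052_nt.main⟩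

end Pool.Agent.Results.MP_3fd052_nt.Avoid
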